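import Pool.Agent.Lib.MP_634427_lc.Cobham.NoPrune

set_option autoImplicit false

/-! # Sparse sets that are hard for NP under nonadaptive reductions with boundedly many
negative answers -/

namespace Pool.Agent.Results.MP_634427_lc.BoundedNoAnswers

open Pool.Agent.Lib.MP_634427_lc.Cobham

open Pool.Agent.Lib.MP_634427_lc.Cobham.PolyRed (monos FP_monos coef)

open Classical in
/-- `L` reduces to `S` by a polynomial time truth-table (nonadaptive) reduction with query list
`g x` and evaluator `e`, and for every input all but at most `k` of the queries are in `S`. -/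
def FewNoReduces (k : ℕ) (L S : Set Str) : Prop :=
  ∃ (g : Str → List Str) (e : Str × List Bool → Bool), FP g ∧ FP e ∧
    (∀ x, {s | s ∈ g x ∧ s ∉ S}.ncard ≤ k) ∧
    ∀ x, x ∈ L ↔ e (x, (g x).map fun s => decide (s ∈ S)) = true

section

variable {α : Type} [Data α]

lemma FP_outside {F Q : α → List Str} (hF : FP F) (hQ : FP Q) :
    FP (fun x => outside (F x) (Q x)) :=
  .dedup (.filter (h := fun x s => !decide (s ∈ F x)) hQ (.not (.mem' .snd (hF.comp .fst))))

lemma FP_inside {F Q : α → List Str} (hF : FP F) (hQ : FP Q) :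
    FP (fun x => inside (F x) (Q x)) :=
  .dedup (.filter (h := fun x s => decide (s ∈ F x)) hQ (.mem' .snd (hF.comp .fst)))

lemma FP_greedy {K : α → Str → List Str} {l : α → List Str}
    (hK : FP (fun p : α × Str => K p.1 p.2)) (hl : FP l) : FP (fun x => greedy (K x) (l x)) := by
  refine .foldl' (g := fun _ => []) (h := fun x (D : List Str) u =>
    if (K x u).all (fun s => !decide (s ∈ D.flatMap (K x))) = true then D ++ [u] else D) hl
    (.const _) ?_ hl.bound ?_
  · refine .cond (.all (h := fun (p : α × List Str × Str) s =>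
      !decide (s ∈ p.2.1.flatMap (K p.1))) (.comp2 hK .fst (.snd' .snd)) (.not (.mem' .snd ?_)))
      (.append (.fst' .snd) (.cons' (.snd' .snd) (.const []))) (.fst' .snd)
    exact .flatMap (h := fun (q : (α × List Str × Str) × Str) u => K q.1.1 u) (.fst' (.snd' .fst))
      (.comp2 hK (.fst' (.fst' .fst)) .snd)
  · intro x l' hl'
    exact size_sublist ((greedy_sublist (K x) l').trans hl'.sublist)

lemma FP_rowPoly (k : ℕ) {e : α → List Bool → Bool} {F Q : α → List Str}
    (he : FP (fun p : α × List Bool => e p.1 p.2)) (hF : FP F) (hQ : FP Q) :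
    FP (fun x => rowPoly k (e x) (F x) (Q x)) := by
  refine .map (h := fun x U => (csum k (e x) (F x) (Q x) U, U)) (FP_subs (FP_inside hF hQ) k)
    (.pair ?_ .snd)
  refine .foldl_fin (h := fun (p : α × List Str) s V =>
    ofK (toK s + toK (bit (e p.1 (ans (F p.1) (Q p.1) V))))) (FP_subs .snd k) (.const _) ?_
  refine .comp (g := fun p : Fin 2 × Bool => ofK (toK p.1 + toK (bit p.2))) (.table _)
    (.pair (.fst' .snd) (.comp2 he (.fst' .fst) ?_))
  refine .map (h := fun (q : (α × List Str) × Fin 2 × List Str) s =>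
    decide (s ∈ F q.1.1) && !decide (s ∈ q.2.2)) (hQ.comp (.fst' .fst)) ?_
  exact .and (.mem' .snd (hF.comp (.fst' (.fst' .fst)))) (.not (.mem' .snd (.snd' (.snd' .fst))))

lemma FP_coef {P : α → List (Fin 2 × List Str)} {m : α → List Str} (hP : FP P) (hm : FP m) :
    FP (fun x => coef (P x) (m x)) := by
  refine .foldl_fin (h := fun x s a => if a.2 = m x then ofK (toK s + toK a.1) else s) hP
    (.const _) ?_
  exact .ite (.decEq (.snd' (.snd' .snd)) (hm.comp .fst))
    (.comp (g := fun p : Fin 2 × Fin 2 => ofK (toK p.1 + toK p.2)) (.table _)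
      (.pair (.fst' .snd) (.fst' (.snd' .snd)))) (.fst' .snd)

lemma FP_worst {V : α → Str → List (Fin 2)} {Δ p : α → ℕ} {D : α → List Str}
    (hV : FP (fun p : α × Str => V p.1 p.2)) (hΔ : FPN Δ) (hp : FPN p) (hD : FP D)
    (hVl : ∀ x u, (V x u).length = Δ x) :
    FP (fun x => worst (V x) (Δ x) (p x) (D x)) := by
  have hg : FPN (fun x => gsz (Δ x) (p x)) := ((hΔ.add (.const 1)).mul hp).add (.const 1)
  have hd : FPN (fun x => Δ x + 1) := hΔ.add (.const 1)
  have hch : FP (fun q : α × List (Fin 1) => chunk (Δ q.1) (p q.1) (D q.1) q.2.length) := by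
    refine .mapRange (h := fun (q : α × List (Fin 1)) j =>
      (D q.1).getD (j * gsz (Δ q.1) (p q.1) + q.2.length) []) (hd.comp .fst) ?_
    exact .getD (hD.comp (.fst' .fst)) (((FPN.length .snd).mul (hg.comp (.fst' .fst))).add
      (.length (.snd' .fst))) (.const _)
  have hcnt : FPN (fun q : α × List (Fin 1) =>
      cnt (V q.1) (Δ q.1) (p q.1) (D q.1) q.2.length) := by
    refine .countRange (h := fun (q : α × List (Fin 1)) a =>
      !decide ((D q.1).getD (q.2.length * gsz (Δ q.1) (p q.1) + a) [] ∈
        lprune (V q.1) (chunk (Δ q.1) (p q.1) (D q.1) a))) (hg.comp .fst) (.not (.mem' ?_ ?_))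
    · exact .getD (hD.comp (.fst' .fst)) (((FPN.length (.snd' .fst)).mul
        (hg.comp (.fst' .fst))).add (.length .snd)) (.const _)
    · exact .comp (g := fun q : α × List Str => lprune (V q.1) q.2) (FP_lprune hV hVl)
        (.pair (.fst' .fst) (.comp hch (.pair (.fst' .fst) .snd)))
  refine .flatMapRange (h := fun x j => if decide (p x < cnt (V x) (Δ x) (p x) (D x) j) = true then
    [(D x).getD (j * gsz (Δ x) (p x) + (gsz (Δ x) (p x) - 1)) []] else []) hd ?_
  exact .cond (.nlt (hp.comp .fst) hcnt) (.cons' (.getD (hD.comp .fst)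
    (((FPN.length .snd).mul (hg.comp .fst)).add ((hg.comp .fst).sub (.const 1))) (.const _))
      (.const [])) (.const _)

end

lemma flatMap_sublist {K K' : Str → List Str} (h : ∀ u, (K u).Sublist (K' u)) {D l : List Str}
    (hD : D.Sublist l) : (D.flatMap K).Sublist (l.flatMap K') := by
  induction hD with
  | slnil => exact List.Sublist.refl _
  | cons a _ ih =>
    rw [List.flatMap_cons]
    exact ih.trans (List.sublist_append_right _ _)
  | cons_cons a _ ih =>
    rw [List.flatMap_cons, List.flatMap_cons]
    exact (h a).append ih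

section

variable {k : ℕ} {p N : Str → ℕ} {Q : Str → Str → List Str} {e : Str → Str → List Bool → Bool}

lemma FP_out (hQ : FP (fun q : Str × Str => Q q.1 q.2)) :
    FP (fun q : (Str × List Str × List Str) × Str => out (Q q.1.1) q.1.2.1 q.2) :=
  FP_outside (.fst' (.snd' .fst)) (.comp2 hQ (.fst' .fst) .snd)

lemma FP_prune1 (hp : FPN p) (hQ : FP (fun q : Str × Str => Q q.1 q.2))
    (he : FP (fun q : Str × Str × List Bool => e q.1 q.2.1 q.2.2)) (j : ℕ) :
    FP (fun q : Str × List Str × List Str =>
      prune1 k (p q.1) (Q q.1) (e q.1) j q.2.1 q.2.2) := by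
  have hV : FP (fun q : (Str × List Str × List Str) × Str =>
      vec k (Q q.1.1) (e q.1.1) q.1.2.1 q.2) := by
    refine .map (h := fun (q : (Str × List Str × List Str) × Str) m =>
      coef (rowPoly k (e q.1.1 q.2) q.1.2.1 (Q q.1.1 q.2)) m) (FP_monos (.fst' (.snd' .fst)) k) ?_
    refine FP_coef (.comp (g := fun q : (Str × List Str × List Str) × Str =>
      rowPoly k (e q.1.1 q.2) q.1.2.1 (Q q.1.1 q.2)) (FP_rowPoly k ?_ ?_ ?_) .fst) .snd
    · exact .comp (g := fun q : Str × Str × List Bool => e q.1 q.2.1 q.2.2) he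
        (.pair (.fst' (.fst' .fst)) (.pair (.snd' .fst) .snd))
    · exact .fst' (.snd' .fst)
    · exact .comp2 hQ (.fst' .fst) .snd
  have hΔ : FPN (fun q : Str × List Str × List Str => (monos q.2.1 k).length) :=
    .length (FP_monos (.fst' .snd) k)
  have hp' : FPN (fun q : Str × List Str × List Str => p q.1) := hp.comp .fst
  have hg : FPN (fun q : Str × List Str × List Str => gsz (monos q.2.1 k).length (p q.1)) :=
    ((hΔ.add (.const 1)).mul hp').add (.const 1)
  have hD : FP (fun q : Str × List Str × List Str => greedy (out (Q q.1) q.2.1) q.2.2) :=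
    FP_greedy (K := fun (q : Str × List Str × List Str) => out (Q q.1) q.2.1) (FP_out hQ)
      (.snd' .snd)
  have hc : FP (fun q : Str × List Str × List Str =>
      decide (((monos q.2.1 k).length + 1) * gsz (monos q.2.1 k).length (p q.1) ≤
        (greedy (out (Q q.1) q.2.1) q.2.2).length)) :=
    .nle ((hΔ.add (.const 1)).mul hg) (.length hD)
  have hw : FP (fun q : Str × List Str × List Str => worst (vec k (Q q.1) (e q.1) q.2.1)
      (monos q.2.1 k).length (p q.1) (greedy (out (Q q.1) q.2.1) q.2.2)) :=
    FP_worst (V := fun (q : Str × List Str × List Str) => vec k (Q q.1) (e q.1) q.2.1) hV hΔ hp'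
      hD (fun q u => length_vec _ _)
  have hf : FP (fun q : Str × List Str × List Str => q.2.2.filter fun u => !decide (u ∈
      worst (vec k (Q q.1) (e q.1) q.2.1) (monos q.2.1 k).length (p q.1)
        (greedy (out (Q q.1) q.2.1) q.2.2))) :=
    .filter (h := fun (q : Str × List Str × List Str) u => !decide (u ∈
      worst (vec k (Q q.1) (e q.1) q.2.1) (monos q.2.1 k).length (p q.1)
        (greedy (out (Q q.1) q.2.1) q.2.2))) (.snd' .snd) (.not (.mem' .snd (hw.comp .fst)))
  induction j with
  | zero => exact .cond hc hf (.snd' .snd)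
  | succ j ih =>
    refine .cond hc hf (.comp (g := fun q : Str × List Str × List Str =>
      prune1 k (p q.1) (Q q.1) (e q.1) j q.2.1 q.2.2) ih (.pair .fst (.pair (.append
        (.fst' .snd) ?_) (.snd' .snd))))
    exact .flatMap (h := fun (q : Str × List Str × List Str) u => out (Q q.1) q.2.1 u) hD
      (FP_out hQ)

lemma FP_start (hN : FPN N) (hQ : FP (fun q : Str × Str => Q q.1 q.2)) :
    FP (fun q : Str × List Str => start k (Q q.1) (N q.1) q.2) := by
  have hQl : FP (fun q : Str × List Str => q.2.flatMap (Q q.1)) :=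
    .flatMap (h := fun (q : Str × List Str) u => Q q.1 u) .snd (.comp2 hQ (.fst' .fst) .snd)
  refine .iterate (n := fun q : Str × List Str => N q.1) (g := fun _ => ([] : List Str))
    (h := fun (q : Str × List Str) F => close k (Q q.1) q.2 F) (hN.comp .fst) (.const _) ?_
    (B := fun q => N q.1 * size (q.2.flatMap (Q q.1)) + 1)
    (((hN.comp .fst).bound.mul hQl.bound).add (PB.const 1)) ?_
  · have ho : FP (fun q : ((Str × List Str) × List Str) × Str =>
        out (Q q.1.1.1) q.1.2 q.2) :=
      FP_outside (.snd' .fst) (.comp2 hQ (.fst' (.fst' .fst)) .snd)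
    refine .append .snd (.flatMap (h := fun (q : (Str × List Str) × List Str) u =>
      out (Q q.1.1) q.2 u) ?_ ho)
    refine FP_greedy (K := fun (q : (Str × List Str) × List Str) => out (Q q.1.1) q.2) ho ?_
    exact .filter (h := fun (q : (Str × List Str) × List Str) u =>
      decide (k < (out (Q q.1.1) q.2 u).length)) (.snd' .fst) (.nlt (.const k) (.length ho))
  · rintro ⟨x, l⟩ i hi
    have key : ∀ i, size ((close k (Q x) l)^[i] []) ≤ i * size (l.flatMap (Q x)) + 1 := by
      intro i
      induction i with
      | zero => simp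
      | succ i ih =>
        rw [Function.iterate_succ_apply']
        generalize (close k (Q x) l)^[i] [] = F at *
        have h1 : size ((greedy (out (Q x) F) (l.filter fun u =>
            decide (k < (out (Q x) F u).length))).flatMap (out (Q x) F)) ≤
            size (l.flatMap (Q x)) :=
          size_sublist (flatMap_sublist (fun u => (List.dedup_sublist _).trans
            List.filter_sublist) ((greedy_sublist _ _).trans List.filter_sublist))
        have h2 := size_append F ((greedy (out (Q x) F) (l.filter fun u =>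
            decide (k < (out (Q x) F u).length))).flatMap (out (Q x) F))
        rw [close, add_mul, one_mul]
        omega
    refine (key i).trans ?_
    exact Nat.add_le_add_right (Nat.mul_le_mul_right _ hi) 1

lemma FP_nprune (hp : FPN p) (hN : FPN N) (hQ : FP (fun q : Str × Str => Q q.1 q.2))
    (he : FP (fun q : Str × Str × List Bool => e q.1 q.2.1 q.2.2)) :
    FP (fun q : Str × List Str => nprune k (p q.1) (Q q.1) (e q.1) (N q.1) q.2) := by
  refine .iterate (n := fun q : Str × List Str => q.2.length) (g := fun q => q.2)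
    (h := fun (q : Str × List Str) l =>
      prune1 k (p q.1) (Q q.1) (e q.1) k (start k (Q q.1) (N q.1) l) l) (.length .snd) .snd ?_
    (B := fun q => size q.2) (PB.size.mono fun q => by simp) ?_
  · exact .comp (g := fun q : Str × List Str × List Str =>
      prune1 k (p q.1) (Q q.1) (e q.1) k q.2.1 q.2.2) (FP_prune1 hp hQ he k)
      (.pair (.fst' .fst) (.pair (.comp (g := fun q : Str × List Str =>
        start k (Q q.1) (N q.1) q.2) (FP_start hN hQ) (.pair (.fst' .fst) .snd)) .snd))
  · intro q i _
    exact size_sublist (iterate_sublist (fun _ => prune1_sublist _ _ _) _ _)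

lemma PB_bnd {n : Str → ℕ} (hp : PB p) (hn : PB n) (j : ℕ) :
    PB (fun x => bnd k (p x) j (n x)) := by
  have hm : ∀ {n : Str → ℕ}, PB n → PB (fun x => mlen k (n x)) := by
    intro n hn
    induction k with
    | zero => exact PB.const 1
    | succ k ih => exact (PB.const 1).add (hn.mul ih)
  have ht : ∀ {n : Str → ℕ}, PB n → PB (fun x => thr k (p x) (n x)) := fun hn =>
    ((hm hn).add (PB.const 1)).mul ((((hm hn).add (PB.const 1)).mul hp).add (PB.const 1))
  induction j generalizing n with
  | zero => exact ht hn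
  | succ j ih => exact ih (hn.add ((ht hn).mul (PB.const k)))

end

theorem inP_of_hard {k : ℕ} {S : Set Str} (hS : Sparse S) {L : Set Str} {c : ℕ}
    {R : Str × Str → Bool} (hR : FP R)
    (hL : ∀ x, x ∈ L ↔ ∃ y : Str, y.length = x.length ^ c + c ∧ R (x, y) = true)
    (hard : FewNoReduces k (leftSet c R) S) : InP L := by
  classical
  obtain ⟨g, e, hg, he, hgk, hgL⟩ := hard
  obtain ⟨cs, hcs⟩ := hS
  obtain ⟨d, hd⟩ := hg.bound
  set N : Str → ℕ := fun x => (4 * x.length + 2 * plen c x + 5) ^ d with hN
  have hNF : FPN N := ((((FPN.const 4).mul (.length .id)).add ((FPN.const 2).mul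
    (FPN_plen c))).add (.const 5)).pow d
  set p : Str → ℕ := fun x => N x ^ cs + cs with hpdef
  have hpF : FPN p := (hNF.pow cs).add (.const cs)
  set w : Str → Str → Str := fun x u => enc x (u.take (plen c x)) with hw
  have hwF : FP (fun q : Str × Str => w q.1 q.2) :=
    .comp2 FP_enc .fst (.take ((FPN_plen c).comp .fst) .snd)
  set Q : Str → Str → List Str := fun x u => g (w x u) with hQdef
  have hQF : FP (fun q : Str × Str => Q q.1 q.2) := .comp hg hwF
  set ev : Str → Str → List Bool → Bool := fun x u bs => e (w x u, bs) with hev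
  have hevF : FP (fun q : Str × Str × List Bool => ev q.1 q.2.1 q.2.2) :=
    .comp he (.pair (.comp2 hwF .fst (.fst' .snd)) (.snd' .snd))
  have hsz : ∀ x u, size (Q x u) ≤ N x := by
    intro x u
    refine (hd (w x u)).trans ?_
    rw [hw, hN, size_str]
    dsimp only
    rw [length_enc, List.length_take]
    exact Nat.pow_le_pow_left (by omega) d
  have hQ : ∀ x u, (Q x u).length ≤ N x := fun x u => (length_lt_size _).le.trans (hsz x u)
  have hQl : ∀ x u, ∀ s ∈ Q x u, s.length ≤ N x := by
    intro x u s hs
    have h1 := size_le_of_mem hs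
    have h2 := hsz x u
    rw [size_str] at h1
    omega
  have hA : ∀ x, ∀ B : Finset Str, (∀ s ∈ B, s ∈ S ∧ s.length ≤ N x) → B.card ≤ p x := by
    intro x B hB
    rw [← Set.ncard_coe_finset]
    refine (Set.ncard_le_ncard (t := {s ∈ S | s.length ≤ N x}) (fun s hs => hB s hs) ?_).trans
      (hcs (N x))
    exact (List.finite_length_le Bool (N x)).subset fun s hs => hs.2
  refine inP_of_prune' hR hL (prune := fun x l => nprune k (p x) (Q x) (ev x) (N x) l)
    (B := fun x => bnd k (p x) k (N x * (p x * N x))) (FP_nprune hpF hNF hQF hevF)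
    (fun x l => nprune_sublist l) (PB_bnd hpF.bound (hNF.bound.mul (hpF.bound.mul hNF.bound)) k)
    (fun x l hl => nprune_length (hQ x) (hQl x) (hA x) (fun u => hgk _) hl) ?_
  intro x l t ht hl hlen htp htrue
  refine nprune_keep (S := S) (hQl x) (hA x) (fun u => hgk _) hl ht ?_
  intro u hu
  rw [← htrue u hu, hgL]
  have : w x u = enc x u := by
    rw [hw]
    dsimp only
    rw [List.take_of_length_le (by rw [hlen u hu]; exact htp)]
  rw [hev, hQdef]
  dsimp only
  rw [this]

/-- P = NP if and only if some sparse set is hard for NP under polynomial time nonadaptive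
reductions that receive, on every input, at most `k` negative answers (`k` constant). -/
theorem result : PeqNP ↔ ∃ S : Set Str, Sparse S ∧
    ∀ L, InNP L → ∃ k : ℕ, FewNoReduces k L S := by
  classical
  constructor
  · intro h
    refine ⟨∅, ⟨0, fun n => by simp⟩, fun L hL => ?_⟩
    obtain ⟨f, hf, hfL⟩ := (h L).2 hL
    refine ⟨0, fun _ => [], fun q => f q.1, .const _, .comp hf .fst, ?_, ?_⟩
    · intro x
      simp
    · intro x
      rw [hfL]
  · rintro ⟨S, hS, hard⟩ L
    refine ⟨InP.inNP, ?_⟩
    rintro ⟨c, R, hR, hL⟩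
    obtain ⟨k, hk⟩ := hard _ (leftSet_inNP (c := c) hR)
    exact inP_of_hard hS hR hL hk

end Pool.Agent.Results.MP_634427_lc.BoundedNoAnswers
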