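import Pool.Agent.Lib.MP_634427_lc.NegSolve

/-! If a sparse set is hard for NP under polynomial-time Turing reductions (adaptive, with
unboundedly many queries) in which at most `k` queries have a negative answer, `k` a constant,
then NP = RP.

Polynomial time is defined by Cobham's function algebra on binary trees (`PolyTime`, `PT`). A
Turing reduction is given by three polynomial-time functions that compute, from the input and the
list of the answers received so far, whether the computation stops, the next query, and the output.
Every polynomial-time oracle machine gives such functions (simulate the machine with the given
answers), and they describe a polynomial-time oracle machine.

Idea of the proof. Let `u` be the unique witness of an instance. One keeps a list `B` of candidates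
for the first `j` letters of `u` and a list `R` of parities that are orthogonal on `B`. The
questions whether `⟨r, u⟩ = 1`, for `r` in `R`, are NP questions, and one runs the reduction on all
of them in parallel, with positive answers to the queries in a list `T` of members of `S`. When most
runs stop, their outputs are parities of `u`. Otherwise, if a pending query `s` is common to many
runs, then one case is that `s` is not in `S`, and one continues with these runs and one negative
answer less; the other case is that `s` is in `S`, and `s` is added to `T` (this happens a
polynomial number of times). If no pending query is popular, then all but a small fraction of the
runs have a negative answer, because `S` is sparse, and one continues with one negative answer less.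
When no negative answer is left, all answers are positive. The thresholds are chosen so that the
fraction of false runs stays small; the candidates that agree with the outputs on three quarters of
the remaining parities are kept, and Bessel's inequality bounds their number independently of the
length of `B`. This finds unique witnesses, and the isolation lemma gives NP = RP. -/

namespace Pool.Agent.Lib.MP_634427_lc.Kept.FewNegativeAnswers

open Pool.Agent.Lib.MP_634427_lc

/-- If a sparse set `S` is hard for NP under polynomial-time Turing reductions with at most `k`
negative answers, then NP = RP. -/
theorem result (k : ℕ) (S : Set Word) (hS : Sparse S)
    (hard : ∀ A : Set Word, InNP A → NegReducible k A S) (L : Set Word) : InNP L ↔ InRP L :=
  ⟨(uniqueSolvable_of_neg k S hS hard).inNP_imp_inRP L, inRP_imp_inNP L⟩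

end Pool.Agent.Lib.MP_634427_lc.Kept.FewNegativeAnswers
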