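import Pool.Agent.Lib.MP_634427_lc.NearEnd
import Pool.Agent.Lib.MP_634427_lc.Hybrid
import Pool.Agent.Lib.MP_634427_lc.HybridUse
import Pool.Agent.Lib.MP_634427_lc.Low

/-! P = NP if and only if some sparse set that is hard for NP under hybrid reductions agrees with a
set in NP except for a set of polylogarithmic density.

Hybrid reductions (`HybridReducible`) are polynomial-time Turing reductions with an adaptive phase
with polynomially many queries of which at most `k` have a negative answer, followed by a list of
signed bundles of words; `x` is in `A` iff more positive than negative bundles lie inside the sparse
set. They contain the threshold truth-table reductions (majority, disjunctive, small weights,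
majority votes of bounded truth-table reductions) and the Turing reductions with at most `k`
negative answers.

Two special cases: sparse sets in NP that are complete under hybrid reductions (the exceptional
set is empty), and sets of polylogarithmic density, of arbitrary complexity, that are hard under
hybrid reductions (the set in NP is empty).

Polynomial time is defined by Cobham's function algebra on binary trees (`PolyTime`, `PT`).

Idea of the proof. (1) If a projection of the witnesses of an NP relation has a unique value, this
value is in a list computed in polynomial time: the parities of the value are NP questions; one
runs the reduction on many of them in parallel, keeps the runs with the same popular negative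
answers, and keeps the candidates that are correlated with the coefficients of some bundle (Bessel's
inequality and the orthogonality of parities bound their number). (2) Hence an NP relation with
witnesses of polylogarithmic length can be solved in polynomial time: a path in a tree of depth
`t s` is described by a path of depth `t`, where `s` is about `sqrt (log n)`, with the help of the
set of good children of a node (unique if their number is known) and of families of `O (log ^ 2)`
sets that isolate a member of each nonempty set in a polynomial list. (3) A table of the words of
`S` is determined by the number of the words of the set in NP (these can be verified) and by the
exceptional words; these are guessed, each as one of polynomially many words asked on the walk to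
the leftmost witness, which is unique for a given table. So the number of guesses is
polylogarithmic, and (2) applies. -/

namespace Pool.Agent.Lib.MP_634427_lc.Kept.HybridNearNP

open Pool.Agent.Lib.MP_634427_lc

/-- P = NP iff some sparse set is hard for NP under hybrid reductions and agrees with a set in NP
except for a set of polylogarithmic density. -/
theorem result : (∃ S : Set Word, Sparse S ∧ NearNP S ∧
    ∀ A : Set Word, InNP A → HybridReducible A S) ↔ ∀ L : Set Word, InNP L ↔ InP L := by
  constructor
  · rintro ⟨S, hsp, ⟨E, hE, hD⟩, hard⟩ L
    exact ⟨near_inP (projCands_of_hybrid S hsp hard) S E hE hsp hD
      (fun A hA => turingRed_of_hybrid (hard A hA)) L, inP_imp_inNP L⟩
  · intro h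
    exact ⟨∅, ⟨0, fun n => by simp⟩, ⟨∅, ⟨fun _ => false, 0, PT.const false, fun x => by simp⟩,
      0, fun n => by simp⟩, fun A hA => hybrid_of_pThr (exists_empty_hard (fun L => (h L).1) A hA)⟩

end Pool.Agent.Lib.MP_634427_lc.Kept.HybridNearNP
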