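import Pool.Agent.Lib.MP_634427_lc.Hybrid
import Pool.Agent.Lib.MP_634427_lc.HybridUse
import Pool.Agent.Lib.MP_634427_lc.Final

/-! If a sparse set is hard for NP under polynomial-time Turing reductions that consist of an
adaptive phase with boundedly many negative answers and a final threshold evaluation, then
NP = RP.

Hybrid reductions (`HybridReducible`): an adaptive phase with polynomially many queries of which at
most `k` have a negative answer, followed by a list of signed bundles of words; `x` is in `A` iff
more positive than negative bundles lie inside the sparse set. Without the adaptive phase these are
threshold truth-table reductions (majority, disjunctive, small weights, majority votes of bounded
truth-table reductions); with a trivial final phase they are Turing reductions with at most `k`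
negative answers.

Polynomial time is defined by Cobham's function algebra on binary trees (`PolyTime`, `PT`). A
Turing reduction is given by polynomial-time functions that compute, from the input and the list of
the answers received so far, whether the computation stops, the next query, and the output. Every
polynomial-time oracle machine gives such functions (simulate the machine with the given answers),
and they describe a polynomial-time oracle machine.

Idea of the proof. Let `u` be the unique witness of an instance. One keeps a list `B` of candidates
for the first `j` letters of `u` and a list `R` of parities that are orthogonal on `B`. The
questions whether `⟨r, u⟩ = 1`, for `r` in `R`, are NP questions, and one runs the reduction on all
of them in parallel, with positive answers to the queries in a list `T` of members of `S`. When most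
runs stop, the final filter is applied (see below). Otherwise, if a pending query `s` is common to
many runs, then one case is that `s` is not in `S`, and one continues with these runs and one
negative answer less; the other case is that `s` is in `S`, and `s` is added to `T` (this happens a
polynomial number of times). If no pending query is popular, then all but a small fraction of the
runs have a negative answer, because `S` is sparse, and one continues with one negative answer less.
The thresholds are chosen so that the fraction of false runs stays small. Filter: the parities of
`u` are the signs of the values of one functional (the indicator of the bundles inside `S`, of
polynomial support) on the final bundle vectors of the runs, so they are correlated with the
coefficients of some bundle, which is popular; the sign vectors of different candidates are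
orthogonal, so by Bessel's inequality only polynomially many candidates pass, a bound which does not
depend on the length of `B`. This finds unique witnesses, and the isolation lemma gives NP = RP. -/

namespace Pool.Agent.Lib.MP_634427_lc.Kept.HybridRP

open Pool.Agent.Lib.MP_634427_lc

/-- If a sparse set `S` is hard for NP under polynomial-time Turing reductions that consist of an
adaptive phase with boundedly many negative answers and a final threshold evaluation, then
NP = RP. -/
theorem result (S : Set Word) (hS : Sparse S)
    (hard : ∀ A : Set Word, InNP A → HybridReducible A S) (L : Set Word) : InNP L ↔ InRP L :=
  ⟨(uniqueSolvable_of_projCands (projCands_of_hybrid S hS hard)).inNP_imp_inRP L,
    inRP_imp_inNP L⟩

end Pool.Agent.Lib.MP_634427_lc.Kept.HybridRP
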