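import Pool.Agent.Lib.MP_634427_lc.Subexp
import Pool.Agent.Lib.MP_634427_lc.Hybrid

/-! If a sparse set is hard for NP under hybrid reductions, then every set in NP is in
deterministic time `2 ^ (n ^ ε)` for all `ε > 0`.

Hybrid reductions (`HybridReducible`) are polynomial-time Turing reductions with an adaptive phase
with polynomially many queries of which at most `k` have a negative answer, followed by a list of
signed bundles of words; `x` is in `A` iff more positive than negative bundles lie inside the sparse
set. They contain the threshold truth-table reductions (majority, disjunctive, small weights,
majority votes of bounded truth-table reductions) and the Turing reductions with at most `k`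
negative answers. No assumption on the complexity of the sparse set is made.

Polynomial time is defined by Cobham's function algebra on binary trees (`PolyTime`, `PT`).

Idea of the proof. (1) If a projection of the witnesses of an NP relation has a unique value, this
value is in a list computed in polynomial time. (2) A path in a tree of depth `t s` is described by
a path of depth `t`, where `s` is about `sqrt (log n)`, with the help of the set of good children of
a node (unique if their number is known) and of families of `O (log ^ 2)` sets that isolate a member
of each nonempty set in a polynomial list; after a bounded number of rounds, with `2 ^ r` instead of
the input length, witnesses of length `r ^ k` are found in time polynomial in `2 ^ r`. -/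

namespace Pool.Agent.Lib.MP_634427_lc.Kept.HybridSubexp

open Pool.Agent.Lib.MP_634427_lc

/-- If a sparse set is hard for NP under hybrid reductions, then every set in NP is in
deterministic time `2 ^ (n ^ ε)` for every `ε > 0`. -/
theorem result (S : Set Word) (hS : Sparse S)
    (hard : ∀ A : Set Word, InNP A → HybridReducible A S) (L : Set Word) (hL : InNP L) :
    InSubExp L :=
  inNP_subexp (projCands_of_hybrid S hS hard) L hL

end Pool.Agent.Lib.MP_634427_lc.Kept.HybridSubexp
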