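import Pool.Agent.Lib.MP_634427_lc.Low

/-! If there is a set `S` such that every problem in NP reduces to `S` by a polynomial-time
threshold truth-table reduction with `n ^ o(1)` signed bundles of at most `d n` words, where
`(σ n + 1) ^ d n = n ^ o(1)` for the density `σ` of `S`, then P = NP. This contains disjunctive,
conjunctive and majority truth-table reductions with `n ^ o(1)` queries to sets of density
`n ^ o(1)`; and arbitrary truth-table reductions with `q n` queries if
`(σ n + 1) ^ q n = n ^ o(1)`, because every Boolean function of `q` answers is a combination
of at most `2 ^ q` conjunctions with integer coefficients of absolute value at most `2 ^ q`.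

Polynomial time is defined by Cobham's function algebra on binary trees (`PolyTime`, `PT`).

Idea of the proof. One keeps a short list `B` of prefixes that contains a prefix of some witness,
if there is a witness. The NP questions whether there is a witness `u` with a prefix in `B` and with
`⟨r, u⟩ = b`, for parities `r` separating `B`, are reduced to the set `S`. If `c` in `B` is the only
prefix of a witness in `B`, then the perceptron finds in `n ^ o(1)` updates a functional that
predicts the parities of `c`. By Bessel's inequality this can happen for `n ^ o(1)` members of `B`
only, and here this bound is smaller than the length of `B` although the list `B` is a part of the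
questions; so a member of `B` can be removed. -/

namespace Pool.Agent.Lib.MP_634427_lc.Kept.LowDensity

open Pool.Agent.Lib.MP_634427_lc

/-- If every set in NP is reducible to `S` by a polynomial-time threshold truth-table reduction
with `n ^ o(1)` signed bundles, of at most `d n` words with `(σ n + 1) ^ d n = n ^ o(1)` for the
density `σ` of `S`, then P = NP. -/
theorem result (S : Set Word) (hard : ∀ A : Set Word, InNP A → FewThrReducible A S)
    (L : Set Word) : InNP L ↔ InP L :=
  ⟨low_density S hard L, inP_imp_inNP L⟩

end Pool.Agent.Lib.MP_634427_lc.Kept.LowDensity
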