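import Pool.Agent.Lib.MP_634427_lc.Small.CoNP
import Pool.Agent.Lib.MP_634427_lc.Small.Canon
import Pool.Agent.Lib.MP_634427_lc.LT.Weighted
import Pool.Agent.Lib.MP_634427_lc.LT.WTuring
import Pool.Agent.Lib.MP_634427_lc.HybridUse
import Pool.Agent.Lib.MP_634427_lc.Polylog
import Pool.Agent.Lib.MP_634427_lc.Low

/-! Reductions to sparse sets with sublinearly many queries.

(1) If a sparse set is hard for NP under small reductions, then NP = coNP.
(2) P = NP if and only if there is a sparse set to which every set in NP is reducible both by a
small reduction and by a weighted reduction.

Small reductions (`SmallReducible`): in polynomial time one computes from `x` a word `e` and a list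
of queries of any polynomial length; whether `x` is in the set depends only on `e` and the answers of
the oracle, by an arbitrary rule; and `|e|` plus the number of the queries is
`O(|x| ^ (k / (k + 1)))` for a fixed `k`, that is, `O(n ^ (1 - ε))`. This contains Turing reductions
with at most `c log n` adaptive queries, `c < 1` (list the queries for all possible answers), and
disjunctive, conjunctive, parity, majority and other truth-table reductions with a fixed evaluator
and at most `n ^ (1 - ε)` queries.

Weighted reductions (`WeightedReducible`): polynomial-time Turing reductions with an adaptive phase
with boundedly many negative answers, followed by a vote: a list of bundles of words with weights,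
and `x` is in the set iff the sum of the weights of the bundles inside the sparse set is positive.
They contain all truth-table reductions with boundedly many queries, disjunctive and majority
reductions, majority votes of bounded truth-table reductions, and threshold gates with arbitrary
weights in the bits of a tally set.

Polynomial time is defined by Cobham's function algebra on binary trees (`PolyTime`, `PT`).

Idea of the proof of (1). Let `L` be in NP. To certify that `x` is not in `L` one walks down the tree
of the prefixes of possible witnesses with lists of at most `R` prefixes, a fixed polynomial in `n`.
When the list `v_1, ..., v_t` has become too long, one of its members is deleted. The set of all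
`(x, v, D)`, `D` a word of length `t`, such that some `v_i` with `D_i = 1` is a prefix of a witness is
in NP; its instances have length `O(t n)`, so the small reduction asks much fewer than `t` queries.
There are `2 ^ t` words `D`; by the pigeonhole principle and the sunflower lemma there are
`N = M t + 2` words `D` with the same `e` and the same number of queries, for which the queries form
a sunflower (the same queries at the core positions, and no common queries at the others); here `M`
is a bound for the number of words of `S`. Then all but `M` of these `D` have the same truth value.
Since `N` different words have a coordinate `i` with more than `M` ones and more than `M` zeros, `v_i`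
cannot be the only prefix of a witness in the list, and may be deleted. Such sunflowers can be
guessed and checked in polynomial time.

Idea of the proof of (2). If NP = coNP, then the predicate that `u` is the first witness of `x` is in
NP, and the unique projections of the witnesses of an NP relation can be found in polynomial time by
means of weighted reductions (radial isotropic position of the vectors of the votes, as in
`WeightedCollapse`). -/

namespace Pool.Agent.Results.MP_634427_lc.SublinearReductions

open Pool.Agent.Lib.MP_634427_lc

/-- (1) If every set in NP is reducible to a sparse set by small reductions, then NP = coNP.
(2) P = NP iff every set in NP is reducible to one sparse set both by a small and by a weighted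
reduction. -/
theorem result :
    ((∃ (k : ℕ) (S : Set Word), Sparse S ∧ ∀ A : Set Word, InNP A → SmallReducible k A S) →
      ∀ L : Set Word, InNP L → InNP Lᶜ) ∧
    ((∃ (k : ℕ) (S : Set Word), Sparse S ∧
        ∀ A : Set Word, InNP A → SmallReducible k A S ∧ WeightedReducible A S) ↔
      ∀ L : Set Word, InNP L ↔ InP L) := by
  refine ⟨?_, ?_, ?_⟩
  · rintro ⟨k, S, hS, hard⟩ L hL
    exact Small.coNP_of_small k S hS hard L hL
  · rintro ⟨k, S, hS, hard⟩ L
    exact ⟨Small.inP_of_coNP (projCands_of_weighted S hS fun A hA => (hard A hA).2)
      (Small.coNP_of_small k S hS fun A hA => (hard A hA).1) L, inP_imp_inNP L⟩
  · intro h
    refine ⟨0, ∅, ⟨0, fun n => by simp⟩, fun A hA => ⟨?_, ?_⟩⟩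
    · obtain ⟨g, hg, hgA⟩ := (h A).1 hA
      refine ⟨fun x => ([g x], []), fun e _ => e = [true], 1,
        PT.pair (PT.cons hg (PT.const [])) (PT.const []), fun x => by simp, fun x => ?_⟩
      rw [hgA]
      simp
    · exact weighted_of_hybrid (hybrid_of_pThr (exists_empty_hard (fun L => (h L).1) A hA))

end Pool.Agent.Results.MP_634427_lc.SublinearReductions
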