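import Pool.Agent.Lib.MP_634427_lc.Complete

/-! A sparse set is complete for NP under polynomial-time threshold truth-table reductions if and
only if P = NP.

Threshold truth-table reductions (`PThrReducible`): `x` is mapped to a list of signed bundles of
words (polynomially many); `x` is in `A` iff more positive than negative bundles lie inside the
complete set `S`. With bundles of one word these are majority and small-weight threshold
truth-table reductions, in particular disjunctive and conjunctive reductions, with unboundedly many
queries; with bundles of at most `d` words they contain bounded truth-table reductions and majority
votes of those.

Polynomial time is defined by Cobham's function algebra on binary trees (`PolyTime`, `PT`).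

Idea of the proof. If the number of words of `S` up to the relevant length is known, then these
words can be guessed and verified since `S` is in NP, and hence the parity of the leftmost witness
of `x` is an NP question. It is reduced to the sparse set `S` by a threshold reduction. The
perceptron, Bessel's inequality and the orthogonality of parities give a list of polynomially many
candidates for the prefixes of the leftmost witness (unique, so no hashing is needed). -/

namespace Pool.Agent.Lib.MP_634427_lc.Kept.ThresholdComplete

open Pool.Agent.Lib.MP_634427_lc

/-- There is a sparse set in NP to which every set in NP is reducible by polynomial-time threshold
truth-table reductions if and only if P = NP. -/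
theorem result : (∃ S : Set Word, InNP S ∧ Sparse S ∧ ∀ A : Set Word, InNP A → PThrReducible A S) ↔
    ∀ L : Set Word, InNP L ↔ InP L :=
  ⟨fun ⟨S, h1, h2, h3⟩ L => ⟨complete_inP S h1 h2 h3 L, inP_imp_inNP L⟩,
    fun h => exists_complete fun L => (h L).1⟩

end Pool.Agent.Lib.MP_634427_lc.Kept.ThresholdComplete
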