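import Pool.Agent.Lib.MP_634427_lc.NearEnd
import Pool.Agent.Lib.MP_634427_lc.Low

/-! P = NP if and only if some sparse set that is hard for NP under polynomial-time threshold
truth-table reductions agrees with a set in NP except for a set of polylogarithmic density.

Two special cases: sparse sets in NP that are complete under threshold reductions (the exceptional
set is empty), and sets of polylogarithmic density, of arbitrary complexity, that are hard under
threshold reductions (the set in NP is empty).

Threshold truth-table reductions (`PThrReducible`): `x` is mapped to a list of signed bundles of
words (polynomially many); `x` is in `A` iff more positive than negative bundles lie inside the
complete set `S`. With bundles of one word these are majority and small-weight threshold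
truth-table reductions, in particular disjunctive and conjunctive reductions, with unboundedly many
queries; with bundles of at most `d` words they contain bounded truth-table reductions and majority
votes of those.

Polynomial time is defined by Cobham's function algebra on binary trees (`PolyTime`, `PT`).

Idea of the proof. (1) If a projection of the witnesses of an NP relation has a unique value, this
value is in a list computed in polynomial time: the parities of the value are NP questions, hence
values of a linear functional of small norm, and the perceptron, Bessel's inequality and the
orthogonality of parities bound the number of candidates. (2) Hence an NP relation with witnesses
of polylogarithmic length can be solved in polynomial time: a path in a tree of depth `t s` is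
described by a path of depth `t`, where `s` is about `sqrt (log n)`, with the help of the set of
good children of a node (unique if their number is known) and of families of `O (log ^ 2)` sets that
isolate a member of each nonempty set in a polynomial list. (3) A table of the words of `S` is
determined by the number of the words of the set in NP (these can be verified) and by the
exceptional words; these are guessed, each as one of polynomially many words asked on the walk to
the leftmost witness, which is unique for a given table. So the number of guesses is
polylogarithmic, and (2) applies. -/

namespace Pool.Agent.Lib.MP_634427_lc.Kept.ThresholdNearNP

open Pool.Agent.Lib.MP_634427_lc

/-- P = NP iff some sparse set is hard for NP under polynomial-time threshold truth-table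
reductions and agrees with a set in NP except for a set of polylogarithmic density. -/
theorem result : (∃ S : Set Word, Sparse S ∧ NearNP S ∧ ∀ A : Set Word, InNP A → PThrReducible A S) ↔
    ∀ L : Set Word, InNP L ↔ InP L := by
  constructor
  · rintro ⟨S, hsp, ⟨E, hE, hD⟩, hard⟩ L
    exact ⟨near_inP (projCands_of_thr S hard) S E hE hsp hD
      (fun A hA => turingRed_of_pThr (hard A hA)) L, inP_imp_inNP L⟩
  · intro h
    exact ⟨∅, ⟨0, fun n => by simp⟩, ⟨∅, ⟨fun _ => false, 0, PT.const false, fun x => by simp⟩,
      0, fun n => by simp⟩, exists_empty_hard fun L => (h L).1⟩

end Pool.Agent.Lib.MP_634427_lc.Kept.ThresholdNearNP
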