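import Pool.Agent.Lib.MP_634427_lc.Final

/-! If a sparse set is hard for NP under polynomial-time threshold truth-table reductions of
constant degree (in particular under majority truth-table reductions), then NP = RP.

Polynomial time is defined by Cobham's function algebra on binary trees (`PolyTime`, `PT`).

Idea of the proof. Let `u` be the unique witness of an instance. One keeps a list `B` of candidates
for the first `j` letters of `u`. For a parity `r` the NP question whether there is a witness with
`⟨r, u⟩ = b` has, through the reduction, a signed multiset of bundles as its code, and the number of
positive minus negative bundles inside `S` is the value of a linear functional, of polynomially
bounded norm since `S` is sparse. A candidate is kept when the perceptron finds, in polynomially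
many updates, a functional that predicts the parities of this candidate for all `r` in a small list
of parities that separates `B`. The sign vectors of different candidates are orthogonal, so by
Bessel's inequality only polynomially many candidates are kept, a bound which does not depend on
the length of `B`. This finds unique witnesses, and the isolation lemma gives NP = RP. -/

namespace Pool.Agent.Lib.MP_634427_lc.Kept.ThresholdRP

open Pool.Agent.Lib.MP_634427_lc

/-- If a sparse set `S` is hard for NP under polynomial-time threshold truth-table reductions of
degree `d`, then NP = RP. -/
theorem result (d : ℕ) (S : Set Word) (hS : Sparse S)
    (hard : ∀ A : Set Word, InNP A → ThrReducible d A S) (L : Set Word) : InNP L ↔ InRP L :=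
  ⟨inNP_imp_inRP d S hS hard L, inRP_imp_inNP L⟩

end Pool.Agent.Lib.MP_634427_lc.Kept.ThresholdRP
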