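import Pool.Agent.Lib.MP_634427_lc.Votes.Main

/-! Turing reductions of NP sets to a set `S` with at most `T` negative answers, followed by an
arbitrary evaluator of at most `T` weighted threshold votes; here `T` may be polylogarithmic, or any
larger bound.

Let `t` be nondecreasing with `t n ≥ log n`, and `bound t c n = t (n ^ c + c) ^ c`. For `t = log`
this is polylogarithmic, for `t n = n ^ o(1)` it is again of the form `n ^ o(1)`.

Vote reductions (`VoteReducible`): an adaptive phase with polynomially many queries and at most
`T = bound t c n` blocks of negative answers (consecutive negative answers to queries in `0*` count
once); then a list of at most `T` votes, and an arbitrary polynomial-time evaluator of the input,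
the answers and the outcomes of the votes. A vote is a list of polynomially many bundles of words
with integer weights, and it is won iff the sum of the weights of the bundles inside `S` is
positive. Bundles have at most `T` words and weights at most `T` binary digits. This contains
disjunctive, conjunctive and majority reductions, Boolean combinations of `T` of them, reductions
with `T` adaptive queries, and Turing reductions with at most `T` negative answers.

If every set in NP is reducible in this way to one set `S` with at most `2 ^ bound t c n` words of
length at most `n` (for `t = log`: quasi-polynomially many), then every set in NP can be decided
with one-sided error in time `2 ^ bound t d n` with polynomially many random bits (`InRTime`). For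
`t = log` this is randomised quasi-polynomial time.

Polynomial time is defined by Cobham's function algebra on binary trees (`PolyTime`, `PT`).

Idea of the proof. Let `u` be the unique witness of an instance; the reduction is run on the
questions whether `⟨r, u⟩ = 1`, for many parities `r` in parallel. In each turn the words that are
pending for a large part of the runs are guessed to be in `S`, up to a guessed moment; then either
one of the frequent pending words is guessed not to be in `S`, and the runs are restricted to those
that wait for it, or all rare pending queries are answered negatively. An averaging argument shows
that for one of the choices the fraction of the wrong runs grows by at most a fixed factor in each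
turn (not only by a factor that depends on the frequency of the word), so that `T` turns can be
afforded. The evaluator of the outcomes of the votes is turned into one vote: an outcome `true` or
`false` of a vote with value `z` is represented by the product over `j ≤ B` of
`(2 z - 1 + 2 ^ j) ^ 2` or `(2 z - 1 - 2 ^ j) ^ 2`, to the power of the number of the votes (as in
the rational approximations of the sign function of Beigel, Reingold and Spielman), which makes the
term of the true outcomes dominate the sum over all lists of outcomes. Expanding the products gives
a vote with `2 ^ poly T` bundles of `poly T` words, of which `2 ^ poly T` different ones lie in `S`.
For one vote of this size the candidates for `u` are found letter by letter as in `WeightedRP`: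
polynomial fingerprints of the bundles, radial isotropic position of the vectors, and Bessel's
inequality for orthogonal sign vectors. The isolation lemma gives unique witnesses. -/

namespace Pool.Agent.Results.MP_634427_lc.VoteCombinations

open Pool.Agent.Lib.MP_634427_lc

/-- Let `t` be nondecreasing with `log n ≤ t n`. If `S` has at most `2 ^ bound t c n` words of
length at most `n`, and every set in NP is reducible to `S` by a polynomial-time vote reduction
(at most `bound t c n` negative answers, then an evaluator of `bound t c n` weighted votes with
bundles of `bound t c n` words), then every set in NP is decided with one-sided error in time
`2 ^ bound t d n` with polynomially many random bits. -/
theorem result (t : ℕ → ℕ) (ht : Monotone t) (hlog : ∀ n, Nat.log 2 n ≤ t n) (S : Set Word)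
    (hS : ∃ c, ∀ n, {w ∈ S | w.length ≤ n}.ncard ≤ 2 ^ bound t c n)
    (hard : ∀ A : Set Word, InNP A → VoteReducible t A S) (L : Set Word) (hL : InNP L) :
    InRTime t L :=
  Votes.inRTime_of_padCands ht hlog (Votes.padCands_of_vote ht hlog S hS hard) L hL

end Pool.Agent.Results.MP_634427_lc.VoteCombinations
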