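import Pool.Agent.Lib.MP_634427_lc.LT.Weighted
import Pool.Agent.Lib.MP_634427_lc.HybridUse
import Pool.Agent.Lib.MP_634427_lc.Final
import Pool.Agent.Lib.MP_634427_lc.Subexp
import Pool.Agent.Lib.MP_634427_lc.Small.Canon

/-! If a sparse set is hard for NP under weighted reductions, that is, polynomial-time Turing
reductions that consist of an adaptive phase with boundedly many blocks of negative answers and a
final weighted vote, then

(1) NP = RP;
(2) every set in NP is in deterministic time `2 ^ (n ^ ε)` for all `ε > 0`;
(3) if moreover NP = coNP, then P = NP.

Weighted reductions (`WeightedReducible`): an adaptive phase with polynomially many queries, of
which at most `k` have a negative answer, where consecutive negative answers to queries in `0*`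
count only once; then a list of bundles of words with weights, and `x` is in `A` iff the sum of the
weights of the bundles inside the sparse set is positive. Bundles of at most `k` words in `0*` may
have arbitrary integer weights in binary (polynomial threshold functions of constant degree in the
bits of a tally set; in particular reductions to weighted threshold gates LT1, whose weights are
coded in a tally set); all other bundles have weights `1` or `-1` and boundedly many words
(majority, disjunctive and small-weight threshold truth-table reductions to arbitrary sparse sets,
majority votes of bounded truth-table reductions).

Polynomial time is defined by Cobham's function algebra on binary trees (`PolyTime`, `PT`). A
Turing reduction is given by polynomial-time functions that compute, from the input and the list of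
the answers received so far, whether the computation stops, the next query, and the output. Every
polynomial-time oracle machine gives such functions (simulate the machine with the given answers),
and they describe a polynomial-time oracle machine.

Idea of the proof. Let `u` be the unique witness of an instance. One keeps a list `B` of candidates
for the first `j` letters of `u` and a list `R` of parities that are orthogonal on `B`. The
questions whether `⟨r, u⟩ = 1`, for `r` in `R`, are NP questions, and one runs the reduction on all
of them in parallel: polynomially many guesses (a popular query is in `S` or not; a block of
negative answers ends with the common first member of `S`) give collections of runs, and one of the
collections contains a large part of the tests, nearly all with right and complete runs. Final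
filter: the bundles that are not in `0*` are replaced by polynomial fingerprints, so that the
parities of `u` are the signs of one linear functional, with polynomially many coordinates but
arbitrary integer values, on nearly all vectors of the collection. The vectors are brought into
radial isotropic position (Forster): weights `2 ^ (K - t)` are halved as long as the determinant of
the moment matrix drops by a factor `1 - 4 / n`; the number of steps is bounded by a potential
argument, since after a small perturbation the vectors of each item are linearly independent over
the integers. In this position the sum of the vectors with the signs of the right candidate is long,
even if a small fraction of the signs is wrong, and by Bessel's inequality only polynomially many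
candidates with orthogonal sign vectors have this property, a bound which does not depend on the
length of `B`. All comparisons are comparisons of integer determinants, computed by Bird's
algorithm. This finds unique witnesses, and the isolation lemma gives NP = RP.

Idea of the proof of (2). A path in a tree of depth `t s` is described by a path of depth `t`, where `s` is
about `sqrt (log n)`, with the help of the set of good children of a node (unique if their number is
known) and of families of `O (log ^ 2)` sets that isolate a member of each nonempty set in a
polynomial list; after a bounded number of rounds, with `2 ^ r` instead of the input length,
witnesses of length `r ^ k` are found in time polynomial in `2 ^ r`.

Idea of the proof of (3). If NP = coNP, then the predicate that `u` is the lexicographically first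
witness of `x` is in NP, and this unique `u` is found as in (1). -/

namespace Pool.Agent.Results.MP_634427_lc.WeightedCollapse

open Pool.Agent.Lib.MP_634427_lc

/-- Let a sparse set be hard for NP under weighted reductions. Then NP = RP, and every set in NP is
in deterministic time `2 ^ (n ^ ε)` for every `ε > 0`; and P = NP if NP = coNP. -/
theorem result (S : Set Word) (hS : Sparse S)
    (hard : ∀ A : Set Word, InNP A → WeightedReducible A S) :
    (∀ L : Set Word, InNP L ↔ InRP L) ∧ (∀ L : Set Word, InNP L → InSubExp L) ∧
      ((∀ L : Set Word, InNP L → InNP Lᶜ) → ∀ L : Set Word, InNP L → InP L) :=
  ⟨fun L => ⟨(uniqueSolvable_of_projCands (projCands_of_weighted S hS hard)).inNP_imp_inRP L,
    inRP_imp_inNP L⟩, fun L hL => inNP_subexp (projCands_of_weighted S hS hard) L hL,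
    fun hco L hL => Small.inP_of_coNP (projCands_of_weighted S hS hard) hco L hL⟩

end Pool.Agent.Results.MP_634427_lc.WeightedCollapse
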