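import Pool.Agent.Lib.MP_634427_lc.NearEnd
import Pool.Agent.Lib.MP_634427_lc.LT.Weighted
import Pool.Agent.Lib.MP_634427_lc.LT.WTuring
import Pool.Agent.Lib.MP_634427_lc.HybridUse
import Pool.Agent.Lib.MP_634427_lc.Low

/-! P = NP if and only if some sparse set that is hard for NP under weighted reductions agrees with
a set in NP except for a set of polylogarithmic density.

Weighted reductions (`WeightedReducible`): polynomial-time Turing reductions with an adaptive phase
with polynomially many queries, of which at most `k` have a negative answer, where consecutive
negative answers to queries in `0*` count only once; then a list of bundles of words with weights,
and `x` is in `A` iff the sum of the weights of the bundles inside the sparse set is positive.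
Bundles of at most `k` words in `0*` may have arbitrary integer weights in binary (polynomial
threshold functions of constant degree in the bits of a tally set); all other bundles have weights
`1` or `-1` and boundedly many words (majority, disjunctive and small-weight threshold truth-table
reductions, majority votes of bounded truth-table reductions).

Two special cases: sparse sets in NP that are complete under weighted reductions (the exceptional
set is empty), and sets of polylogarithmic density, of arbitrary complexity, that are hard under
weighted reductions (the set in NP is empty).

Polynomial time is defined by Cobham's function algebra on binary trees (`PolyTime`, `PT`).

Idea of the proof. (1) If a projection of the witnesses of an NP relation has a unique value, this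
value is in a list computed in polynomial time: the parities of the value are NP questions; one
runs the reduction on many of them in parallel, brings the vectors of the final votes into radial
isotropic position (Forster) by comparisons of integer determinants, and keeps the candidates whose
signs give a long sum of these vectors (Bessel's inequality and the orthogonality of parities bound
their number). (2) Hence an NP relation with witnesses of polylogarithmic length can be solved in
polynomial time: a path in a tree of depth `t s` is described by a path of depth `t`, where `s` is
about `sqrt (log n)`, with the help of the set of good children of a node (unique if their number is
known) and of families of `O (log ^ 2)` sets that isolate a member of each nonempty set in a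
polynomial list. (3) A table of the words of `S` is determined by the number of the words of the set
in NP (these can be verified) and by the exceptional words; these are guessed, each as one of
polynomially many words asked on the walk to the leftmost witness, which is unique for a given
table. So the number of guesses is polylogarithmic, and (2) applies. -/

namespace Pool.Agent.Results.MP_634427_lc.WeightedNearNP

open Pool.Agent.Lib.MP_634427_lc

/-- P = NP iff some sparse set is hard for NP under weighted reductions and agrees with a set in NP
except for a set of polylogarithmic density. -/
theorem result : (∃ S : Set Word, Sparse S ∧ NearNP S ∧
    ∀ A : Set Word, InNP A → WeightedReducible A S) ↔ ∀ L : Set Word, InNP L ↔ InP L := by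
  constructor
  · rintro ⟨S, hsp, ⟨E, hE, hD⟩, hard⟩ L
    exact ⟨near_inP (projCands_of_weighted S hsp hard) S E hE hsp hD
      (fun A hA => turingRed_of_weighted (hard A hA)) L, inP_imp_inNP L⟩
  · intro h
    exact ⟨∅, ⟨0, fun n => by simp⟩, ⟨∅, ⟨fun _ => false, 0, PT.const false, fun x => by simp⟩,
      0, fun n => by simp⟩, fun A hA =>
        weighted_of_hybrid (hybrid_of_pThr (exists_empty_hard (fun L => (h L).1) A hA))⟩

end Pool.Agent.Results.MP_634427_lc.WeightedNearNP
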