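import Pool.Agent.Lib.MP_634427_lc.LT.Weighted
import Pool.Agent.Lib.MP_634427_lc.HybridUse
import Pool.Agent.Lib.MP_634427_lc.Final

/-! If a sparse set is hard for NP under polynomial-time Turing reductions that consist of an
adaptive phase with boundedly many blocks of negative answers and a final weighted vote, then
NP = RP.

Weighted reductions (`WeightedReducible`): an adaptive phase with polynomially many queries, of
which at most `k` have a negative answer, where consecutive negative answers to queries in `0*`
count only once; then a list of bundles of words with weights, and `x` is in `A` iff the sum of the
weights of the bundles inside the sparse set is positive. Bundles of at most `k` words in `0*` may
have arbitrary integer weights in binary (polynomial threshold functions of constant degree in the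
bits of a tally set; in particular reductions to weighted threshold gates LT1, whose weights are
coded in a tally set); all other bundles have weights `1` or `-1` and boundedly many words
(majority, disjunctive and small-weight threshold truth-table reductions to arbitrary sparse sets,
majority votes of bounded truth-table reductions).

Polynomial time is defined by Cobham's function algebra on binary trees (`PolyTime`, `PT`). A
Turing reduction is given by polynomial-time functions that compute, from the input and the list of
the answers received so far, whether the computation stops, the next query, and the output. Every
polynomial-time oracle machine gives such functions (simulate the machine with the given answers),
and they describe a polynomial-time oracle machine.

Idea of the proof. Let `u` be the unique witness of an instance. One keeps a list `B` of candidates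
for the first `j` letters of `u` and a list `R` of parities that are orthogonal on `B`. The
questions whether `⟨r, u⟩ = 1`, for `r` in `R`, are NP questions, and one runs the reduction on all
of them in parallel: polynomially many guesses (a popular query is in `S` or not; a block of
negative answers ends with the common first member of `S`) give collections of runs, and one of the
collections contains a large part of the tests, nearly all with right and complete runs. Final
filter: the bundles that are not in `0*` are replaced by polynomial fingerprints, so that the
parities of `u` are the signs of one linear functional, with polynomially many coordinates but
arbitrary integer values, on nearly all vectors of the collection. The vectors are brought into
radial isotropic position (Forster): weights `2 ^ (K - t)` are halved as long as the determinant of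
the moment matrix drops by a factor `1 - 4 / n`; the number of steps is bounded by a potential
argument, since after a small perturbation the vectors of each item are linearly independent over
the integers. In this position the sum of the vectors with the signs of the right candidate is long,
even if a small fraction of the signs is wrong, and by Bessel's inequality only polynomially many
candidates with orthogonal sign vectors have this property, a bound which does not depend on the
length of `B`. All comparisons are comparisons of integer determinants, computed by Bird's
algorithm. This finds unique witnesses, and the isolation lemma gives NP = RP. -/

namespace Pool.Agent.Lib.MP_634427_lc.Kept.WeightedRP

open Pool.Agent.Lib.MP_634427_lc

/-- If a sparse set `S` is hard for NP under polynomial-time Turing reductions that consist of an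
adaptive phase with boundedly many blocks of negative answers and a final weighted vote, then
NP = RP. -/
theorem result (S : Set Word) (hS : Sparse S)
    (hard : ∀ A : Set Word, InNP A → WeightedReducible A S) (L : Set Word) : InNP L ↔ InRP L :=
  ⟨(uniqueSolvable_of_projCands (projCands_of_weighted S hS hard)).inNP_imp_inRP L,
    inRP_imp_inNP L⟩

end Pool.Agent.Lib.MP_634427_lc.Kept.WeightedRP
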