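import Pool.Agent.Lib.MP_634427_lc.Subexp
import Pool.Agent.Lib.MP_634427_lc.LT.Weighted

/-! If a sparse set is hard for NP under weighted reductions, then every set in NP is in
deterministic time `2 ^ (n ^ ε)` for all `ε > 0`.

Weighted reductions (`WeightedReducible`): polynomial-time Turing reductions with an adaptive phase
with polynomially many queries, of which at most `k` have a negative answer, where consecutive
negative answers to queries in `0*` count only once; then a list of bundles of words with weights,
and `x` is in `A` iff the sum of the weights of the bundles inside the sparse set is positive.
Bundles of at most `k` words in `0*` may have arbitrary integer weights in binary (polynomial
threshold functions of constant degree in the bits of a tally set; in particular reductions to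
weighted threshold gates LT1, whose weights are coded in a tally set); all other bundles have
weights `1` or `-1` and boundedly many words (majority, disjunctive and small-weight threshold
truth-table reductions, majority votes of bounded truth-table reductions). No assumption on the
complexity of the sparse set is made.

Polynomial time is defined by Cobham's function algebra on binary trees (`PolyTime`, `PT`).

Idea of the proof. (1) If a projection of the witnesses of an NP relation has a unique value, this
value is in a list computed in polynomial time: the vectors of the final votes for many parity
questions are brought into radial isotropic position (Forster) by comparisons of integer
determinants. (2) A path in a tree of depth `t s` is described by a path of depth `t`, where `s` is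
about `sqrt (log n)`, with the help of the set of good children of a node (unique if their number is
known) and of families of `O (log ^ 2)` sets that isolate a member of each nonempty set in a
polynomial list; after a bounded number of rounds, with `2 ^ r` instead of the input length,
witnesses of length `r ^ k` are found in time polynomial in `2 ^ r`. -/

namespace Pool.Agent.Lib.MP_634427_lc.Kept.WeightedSubexp

open Pool.Agent.Lib.MP_634427_lc

/-- If a sparse set is hard for NP under weighted reductions, then every set in NP is in
deterministic time `2 ^ (n ^ ε)` for every `ε > 0`. -/
theorem result (S : Set Word) (hS : Sparse S)
    (hard : ∀ A : Set Word, InNP A → WeightedReducible A S) (L : Set Word) (hL : InNP L) :
    InSubExp L :=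
  inNP_subexp (projCands_of_weighted S hS hard) L hL

end Pool.Agent.Lib.MP_634427_lc.Kept.WeightedSubexp
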