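import Pool.Agent.Lib.MP_634427_lc.Maj.LtFinal

/-! P = NP if and only if a sparse set is hard for NP under polynomial-time disjunctive truth-table
reductions, or under majority truth-table reductions, or under non-adaptive weighted votes; and if
and only if every set in NP is many-one reducible to one set that is decided by single weighted
threshold gates (the class LT1: for each length one linear threshold function with arbitrary real
weights).

Weighted votes (`WVote`): `x` is mapped to a list of bundles of words with integer weights in
binary, and `x` is in `A` iff the total weight of the bundles inside the sparse set `S` is positive.
A bundle has either at most `k` words of `0*` and any weight (polynomial threshold functions of
constant degree, with arbitrary weights, in the bits of a tally set), or at most `d n` words and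
weight `1` or `-1`, where `(s + 1) ^ (d n)` is polynomially bounded, `s` being the number of words of
`S` of length at most `n` (any constant `d` for a sparse set). This contains all threshold
truth-table reductions with small weights (`wvote_of_pThr`).

Polynomial time is defined by Cobham's function algebra on binary trees (`PolyTime`, `PT`).

Idea of the proof. Let `T` be the set of the witnesses of `x`, 0-1 vectors of length `m`. Items are
systems `D` of `n` linear equations modulo a prime `P`, an item is true if `T` contains a solution.
The questions whether items are true form an NP problem, and their length depends on `log P`
only. The children of an item are obtained by adding a new equation on top, from an explicit
family of `P ^ 4` equations depending on two parameter vectors, and by adding multiples of it to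
the old equations. (1) Covering: if more than `k` solutions are in `T` then nearly all children are
true. (2) Mixing: for random parameters the mean of a function over the children of a random
item is close to its mean over all items, in the mean square, with an error which does not depend
on the number of the equations. (3) The reduction gives each item an integer vector of polynomial
dimension and bit length such that an unknown linear functional is positive on the vectors of true
items and negative on those of false items. For each level there are a linear map and scaling
factors of polynomial bit length (by a potential argument with determinants) such that the scaled
images of the vectors of all items of the level are bounded and in isotropic position. So for each
level a polynomial list of items represents the first and second moments of the scaled vectors of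
the children of the items in the list of the previous level. These lists, maps and scaling factors
form a certificate that `T` is empty: one checks the bounds and the moments, that the last items are
contradictory, and that no item is solved by one up to `k` elements of `T` (this uses the
polynomial-time lists of candidates for unique witnesses, which exist for all these reductions).
If `T` is not empty, then the first item is true, so nearly all of its children are true, so the
functional is large in the mean over the children (isotropy and the bound), hence positive in the
mean over the next list, so an item in the next list is true, and so on, a contradiction. Hence
NP = coNP, and then the first witness of `x` is unique in an NP relation and is found in
polynomial time. For threshold gates with real weights one first finds integer weights of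
polynomial bit length (Muroga); their digits are coded in a tally set. -/

namespace Pool.Agent.Results.MP_634427_lc.WeightedVotes

open Pool.Agent.Lib.MP_634427_lc

/-- P = NP iff a sparse set is hard for NP under disjunctive truth-table reductions; iff a sparse
set is hard under majority truth-table reductions; iff a sparse set is hard under non-adaptive
weighted votes; iff all sets in NP are many-one reducible to one set decided by single weighted
threshold gates with real weights. -/
theorem result :
    ((∃ S : Set Word, Sparse S ∧ ∀ A : Set Word, InNP A → DisjReducible A S) ↔
      ∀ L : Set Word, InNP L ↔ InP L) ∧
    ((∃ S : Set Word, Sparse S ∧ ∀ A : Set Word, InNP A → MajReducible A S) ↔
      ∀ L : Set Word, InNP L ↔ InP L) ∧
    ((∃ S : Set Word, Sparse S ∧ ∀ A : Set Word, InNP A → WVote A S) ↔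
      ∀ L : Set Word, InNP L ↔ InP L) ∧
    ((∃ B : Set Word, ThresholdGates B ∧
        ∀ A : Set Word, InNP A → Lib.MP_634427_lc.ManyOneReducible A B) ↔
      ∀ L : Set Word, InNP L ↔ InP L) :=
  Maj.collapse_votes

end Pool.Agent.Results.MP_634427_lc.WeightedVotes
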